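import Mathlib

/-!
# Cross-Sperner families and their intersections: definitions
-/

namespace Pool.Agent.XSperner

open Finset

/-- Two families `A`, `B` of subsets of `{0, …, n-1}` are cross-Sperner if no member of `A` is
contained in a member of `B` and no member of `B` is contained in a member of `A`. -/
def CrossSperner {n : ℕ} (A B : Finset (Finset (Fin n))) : Prop :=
  ∀ a ∈ A, ∀ b ∈ B, ¬ a ⊆ b ∧ ¬ b ⊆ a

/-- The family `{a ∩ b : a ∈ A, b ∈ B}`. -/
def intersections {n : ℕ} (A B : Finset (Finset (Fin n))) : Finset (Finset (Fin n)) :=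
  (A ×ˢ B).image (fun p => p.1 ∩ p.2)

/-- `IsMaxIntersections n m` says that `m` is the maximum of `|{a ∩ b : a ∈ A, b ∈ B}|` over all
cross-Sperner pairs `(A, B)` of families of subsets of an `n`-element set. -/
def IsMaxIntersections (n m : ℕ) : Prop :=
  IsGreatest {k : ℕ | ∃ A B : Finset (Finset (Fin n)),
    CrossSperner A B ∧ #(intersections A B) = k} m

end Pool.Agent.XSperner
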