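import Mathlib

/-!
# Cross-Sperner families: the Harris-Kleitman iteration
-/

namespace Pool.Agent.XSperner

open Finset
open scoped FinsetFamily

section Step

variable {α : Type*} [DecidableEq α]

lemma isLowerSet_sups {P Q : Finset (Finset α)} (hP : IsLowerSet (P : Set (Finset α)))
    (hQ : IsLowerSet (Q : Set (Finset α))) : IsLowerSet ((P ⊻ Q : Finset (Finset α)) : Set (Finset α)) := by
  intro a b hba ha
  rw [mem_coe, mem_sups] at ha ⊢
  obtain ⟨p, hp, q, hq, rfl⟩ := ha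
  refine ⟨b ∩ p, hP (show b ∩ p ≤ p from inter_subset_right) hp, b ∩ q,
    hQ (show b ∩ q ≤ q from inter_subset_right) hq, ?_⟩
  show (b ∩ p) ∪ (b ∩ q) = b
  rw [← inter_union_distrib_left]
  exact inter_eq_left.mpr hba

lemma member_sups {P Q : Finset (Finset α)} (hP : IsLowerSet (P : Set (Finset α)))
    (hQ : IsLowerSet (Q : Set (Finset α))) (i : α) :
    (P ⊻ Q).memberSubfamily i = (P.memberSubfamily i ⊻ Q.nonMemberSubfamily i) ∪
      (P.nonMemberSubfamily i ⊻ Q.memberSubfamily i) := by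
  ext W
  simp only [mem_memberSubfamily, mem_union, mem_sups, mem_nonMemberSubfamily]
  constructor
  · rintro ⟨⟨p, hp, q, hq, hpq⟩, hi⟩
    have hpq' : p ∪ q = insert i W := hpq
    have hiu : i ∈ p ∪ q := by rw [hpq']; exact mem_insert_self _ _
    have hW : (p.erase i) ∪ (q.erase i) = W := by
      rw [← erase_union_distrib, hpq', erase_insert hi]
    rw [mem_union] at hiu
    have hpe : p.erase i ∈ P := hP (show p.erase i ≤ p from erase_subset _ _) hp
    have hqe : q.erase i ∈ Q := hQ (show q.erase i ≤ q from erase_subset _ _) hq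
    rcases hiu with h | h
    · left
      exact ⟨p.erase i, ⟨by rw [insert_erase h]; exact hp, notMem_erase _ _⟩,
        q.erase i, ⟨hqe, notMem_erase _ _⟩, hW⟩
    · right
      exact ⟨p.erase i, ⟨hpe, notMem_erase _ _⟩,
        q.erase i, ⟨by rw [insert_erase h]; exact hq, notMem_erase _ _⟩, hW⟩
  · rintro (⟨p, ⟨hp, hip⟩, q, ⟨hq, hiq⟩, rfl⟩ | ⟨p, ⟨hp, hip⟩, q, ⟨hq, hiq⟩, rfl⟩)
    · refine ⟨⟨insert i p, hp, q, hq, ?_⟩, ?_⟩
      · show insert i p ∪ q = insert i (p ∪ q)
        rw [insert_union]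
      · show i ∉ p ∪ q
        simp [hip, hiq]
    · refine ⟨⟨p, hp, insert i q, hq, ?_⟩, ?_⟩
      · show p ∪ insert i q = insert i (p ∪ q)
        rw [union_insert]
      · show i ∉ p ∪ q
        simp [hip, hiq]

/-- The Harris-Kleitman step. -/
lemma step_harris {P Q : Finset (Finset α)} (hP : IsLowerSet (P : Set (Finset α)))
    (hQ : IsLowerSet (Q : Set (Finset α))) {s : Finset α} {i : α} (hi : i ∉ s)
    (hPs : ∀ t ∈ P, t ⊆ insert i s) (hQs : ∀ t ∈ Q, t ⊆ insert i s) :
    ((2:ℝ) ^ #s - #(P.memberSubfamily i ⊻ Q.nonMemberSubfamily i)) *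
      ((2:ℝ) ^ #s - #(P.nonMemberSubfamily i ⊻ Q.memberSubfamily i)) ≤
      (2:ℝ) ^ #s * (2 ^ (#s + 1) - #(P ⊻ Q)) := by
  set F1 := P.memberSubfamily i ⊻ Q.nonMemberSubfamily i with hF1
  set F2 := P.nonMemberSubfamily i ⊻ Q.memberSubfamily i with hF2
  have h1l : IsLowerSet (F1 : Set (Finset α)) :=
    isLowerSet_sups hP.memberSubfamily hQ.nonMemberSubfamily
  have h2l : IsLowerSet (F2 : Set (Finset α)) :=
    isLowerSet_sups hP.nonMemberSubfamily hQ.memberSubfamily
  have hm : ∀ (R : Finset (Finset α)), (∀ t ∈ R, t ⊆ insert i s) →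
      ∀ t ∈ R.memberSubfamily i, t ⊆ s := by
    intro R hR t ht
    rw [mem_memberSubfamily] at ht
    have := hR _ ht.1
    intro x hx
    have h2 := this (mem_insert_of_mem hx)
    rw [mem_insert] at h2
    rcases h2 with rfl | h2
    · exact absurd hx ht.2
    · exact h2
  have hn : ∀ (R : Finset (Finset α)), (∀ t ∈ R, t ⊆ insert i s) →
      ∀ t ∈ R.nonMemberSubfamily i, t ⊆ s := by
    intro R hR t ht
    rw [mem_nonMemberSubfamily] at ht
    have := hR _ ht.1
    intro x hx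
    have h2 := this hx
    rw [mem_insert] at h2
    rcases h2 with rfl | h2
    · exact absurd hx ht.2
    · exact h2
  have h1s : ∀ t ∈ F1, t ⊆ s := by
    intro t ht
    rw [hF1, mem_sups] at ht
    obtain ⟨p, hp, q, hq, rfl⟩ := ht
    exact union_subset (hm P hPs p hp) (hn Q hQs q hq)
  have h2s : ∀ t ∈ F2, t ⊆ s := by
    intro t ht
    rw [hF2, mem_sups] at ht
    obtain ⟨p, hp, q, hq, rfl⟩ := ht
    exact union_subset (hn P hPs p hp) (hm Q hQs q hq)
  have hHK := h1l.le_card_inter_finset' h2l h1s h2s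
  have hHK' : (#F1 : ℝ) * #F2 ≤ 2 ^ #s * #(F1 ∩ F2) := by exact_mod_cast hHK
  have hU : (#(F1 ∪ F2) : ℝ) + #(F1 ∩ F2) = #F1 + #F2 := by
    exact_mod_cast card_union_add_card_inter F1 F2
  have hsplit : #((P ⊻ Q).memberSubfamily i) + #((P ⊻ Q).nonMemberSubfamily i) = #(P ⊻ Q) :=
    card_memberSubfamily_add_card_nonMemberSubfamily i (P ⊻ Q)
  rw [member_sups hP hQ i] at hsplit
  have hPQs : ∀ t ∈ P ⊻ Q, t ⊆ insert i s := by
    intro t ht
    rw [mem_sups] at ht
    obtain ⟨p, hp, q, hq, rfl⟩ := ht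
    exact union_subset (hPs p hp) (hQs q hq)
  have hle : #((P ⊻ Q).nonMemberSubfamily i) ≤ 2 ^ #s := by
    rw [← card_powerset]
    exact card_le_card (fun t ht => mem_powerset.mpr (hn _ hPQs t ht))
  have hle' : (#((P ⊻ Q).nonMemberSubfamily i) : ℝ) ≤ 2 ^ #s := by exact_mod_cast hle
  have hsplit' : (#(F1 ∪ F2) : ℝ) + #((P ⊻ Q).nonMemberSubfamily i) = #(P ⊻ Q) := by
    exact_mod_cast hsplit
  have hN : (0:ℝ) ≤ 2 ^ #s := by positivity
  have hkey : (2:ℝ) ^ #s - #(F1 ∪ F2) ≤ 2 ^ (#s + 1) - #(P ⊻ Q) := by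
    rw [pow_succ]; linarith
  calc ((2:ℝ) ^ #s - #F1) * ((2:ℝ) ^ #s - #F2)
      = 2 ^ #s * 2 ^ #s - 2 ^ #s * (#F1 + #F2) + #F1 * #F2 := by ring
    _ ≤ 2 ^ #s * 2 ^ #s - 2 ^ #s * (#F1 + #F2) + 2 ^ #s * #(F1 ∩ F2) := by linarith
    _ = 2 ^ #s * (2 ^ #s - #(F1 ∪ F2)) := by rw [← hU]; ring
    _ ≤ _ := mul_le_mul_of_nonneg_left hkey hN

lemma step_prod {P Q : Finset (Finset α)} (hP : IsLowerSet (P : Set (Finset α)))
    (hQ : IsLowerSet (Q : Set (Finset α))) (i : α) :
    2 * ((#(P.memberSubfamily i) : ℝ) * #(Q.nonMemberSubfamily i) +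
      #(P.nonMemberSubfamily i) * #(Q.memberSubfamily i)) ≤ #P * #Q := by
  have h1 : (#(P.memberSubfamily i) : ℝ) + #(P.nonMemberSubfamily i) = #P := by
    exact_mod_cast card_memberSubfamily_add_card_nonMemberSubfamily i P
  have h2 : (#(Q.memberSubfamily i) : ℝ) + #(Q.nonMemberSubfamily i) = #Q := by
    exact_mod_cast card_memberSubfamily_add_card_nonMemberSubfamily i Q
  have h3 : (#(P.memberSubfamily i) : ℝ) ≤ #(P.nonMemberSubfamily i) := by
    exact_mod_cast card_le_card hP.memberSubfamily_subset_nonMemberSubfamily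
  have h4 : (#(Q.memberSubfamily i) : ℝ) ≤ #(Q.nonMemberSubfamily i) := by
    exact_mod_cast card_le_card hQ.memberSubfamily_subset_nonMemberSubfamily
  rw [← h1, ← h2]
  nlinarith [mul_nonneg (sub_nonneg.mpr h3) (sub_nonneg.mpr h4)]

end Step

section Links

variable {α : Type*} [DecidableEq α] [Fintype α]

/-- the link of `S` in `D` -/
def lk (S : Finset α) (D : Finset (Finset α)) : Finset (Finset α) :=
  (Sᶜ).powerset.filter (fun R => R ∪ S ∈ D)

/-- the deletion of `S` from `D` -/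
def dl (S : Finset α) (D : Finset (Finset α)) : Finset (Finset α) :=
  (Sᶜ).powerset.filter (fun R => R ∈ D)

lemma mem_lk {S R : Finset α} {D : Finset (Finset α)} :
    R ∈ lk S D ↔ R ⊆ Sᶜ ∧ R ∪ S ∈ D := by
  simp [lk, mem_filter, mem_powerset]

lemma mem_dl {S R : Finset α} {D : Finset (Finset α)} :
    R ∈ dl S D ↔ R ⊆ Sᶜ ∧ R ∈ D := by
  simp [dl, mem_filter, mem_powerset]

lemma lk_lower {D : Finset (Finset α)} (hD : IsLowerSet (D : Set (Finset α))) (S : Finset α) :
    IsLowerSet (lk S D : Set (Finset α)) := by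
  intro a b hba ha
  rw [mem_coe, mem_lk] at ha ⊢
  exact ⟨hba.trans ha.1, hD (show b ∪ S ≤ a ∪ S from union_subset_union_left hba) ha.2⟩

lemma dl_lower {D : Finset (Finset α)} (hD : IsLowerSet (D : Set (Finset α))) (S : Finset α) :
    IsLowerSet (dl S D : Set (Finset α)) := by
  intro a b hba ha
  rw [mem_coe, mem_dl] at ha ⊢
  exact ⟨hba.trans ha.1, hD hba ha.2⟩

lemma lk_insert {D : Finset (Finset α)} {S : Finset α} {i : α} (hi : i ∉ S) :
    lk (insert i S) D = (lk S D).memberSubfamily i := by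
  ext R
  rw [mem_lk, mem_memberSubfamily, mem_lk, compl_insert, subset_erase, union_insert, insert_union,
    insert_subset_iff, mem_compl]
  tauto

lemma dl_insert {D : Finset (Finset α)} {S : Finset α} {i : α} :
    dl (insert i S) D = (dl S D).nonMemberSubfamily i := by
  ext R
  rw [mem_dl, mem_nonMemberSubfamily, mem_dl, compl_insert, subset_erase]
  tauto

lemma nonMember_lk {D : Finset (Finset α)} {S : Finset α} {i : α} (hi : i ∉ S) :
    (lk S D).nonMemberSubfamily i = lk S (D.nonMemberSubfamily i) := by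
  ext R
  rw [mem_lk, mem_nonMemberSubfamily, mem_lk, mem_nonMemberSubfamily, mem_union]
  tauto

lemma member_dl_subset {D : Finset (Finset α)} {S : Finset α} {i : α} :
    (dl S D).memberSubfamily i ⊆ D.memberSubfamily i := by
  intro R
  rw [mem_memberSubfamily, mem_dl, mem_memberSubfamily]
  tauto

lemma card_lk {D : Finset (Finset α)} (hD : IsLowerSet (D : Set (Finset α))) (S : Finset α) :
    #(lk S D) * 2 ^ #S ≤ #D := by
  rw [← card_powerset, ← card_product]
  apply card_le_card_of_injOn (fun x => x.1 ∪ x.2)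
  · rintro ⟨R, T⟩ hRT
    rw [mem_coe, mem_product, mem_lk, mem_powerset] at hRT
    exact hD (show R ∪ T ≤ R ∪ S from union_subset_union_right hRT.2) hRT.1.2
  · rintro ⟨R, T⟩ hRT ⟨R', T'⟩ hRT' h
    rw [mem_coe, mem_product, mem_lk, mem_powerset] at hRT hRT'
    dsimp only at hRT hRT' h
    have h1 : ∀ R T : Finset α, R ⊆ Sᶜ → T ⊆ S → (R ∪ T) \ S = R := by
      intro R T hR hT
      ext x
      simp only [mem_sdiff, mem_union]
      constructor
      · rintro ⟨h | h, h2⟩
        · exact h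
        · exact absurd (hT h) h2
      · intro h
        exact ⟨Or.inl h, mem_compl.mp (hR h)⟩
    have h2 : ∀ R T : Finset α, R ⊆ Sᶜ → T ⊆ S → (R ∪ T) ∩ S = T := by
      intro R T hR hT
      ext x
      simp only [mem_inter, mem_union]
      constructor
      · rintro ⟨h | h, h2⟩
        · exact absurd h2 (mem_compl.mp (hR h))
        · exact h
      · intro h
        exact ⟨Or.inr h, hT h⟩
    have e1 : R = R' := by
      rw [← h1 R T hRT.1.1 hRT.2, ← h1 R' T' hRT'.1.1 hRT'.2, h]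
    have e2 : T = T' := by
      rw [← h2 R T hRT.1.1 hRT.2, ← h2 R' T' hRT'.1.1 hRT'.2, h]
    rw [e1, e2]

end Links

end Pool.Agent.XSperner
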