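import Mathlib
import Pool.Agent.XSperner.Basic

namespace Pool.Agent.XSperner

open Finset
open scoped FinsetFamily

variable {α : Type*} [DecidableEq α] [Fintype α]

/-- number of missing sets at `S` -/
noncomputable def ms (D1 D2 : Finset (Finset α)) (S : Finset α) : ℝ :=
  (2:ℝ) ^ #Sᶜ - #(lk S D1 ⊻ dl S D2)

/-- density of pairs at `S` -/
noncomputable def rh (D1 D2 : Finset (Finset α)) (S : Finset α) : ℝ :=
  (#(lk S D1) : ℝ) * #(dl S D2) / 2 ^ #Sᶜ

lemma lk_empty (D : Finset (Finset α)) : lk ∅ D = D := by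
  ext R; simp [mem_lk]

lemma dl_empty (D : Finset (Finset α)) : dl ∅ D = D := by
  ext R; simp [mem_dl]

lemma sups_subset_compl (D1 D2 : Finset (Finset α)) (S : Finset α) :
    lk S D1 ⊻ dl S D2 ⊆ (Sᶜ).powerset := by
  intro t ht
  rw [mem_sups] at ht
  obtain ⟨p, hp, q, hq, rfl⟩ := ht
  rw [mem_powerset]
  exact union_subset (mem_lk.mp hp).1 (mem_dl.mp hq).1

lemma ms_nonneg (D1 D2 : Finset (Finset α)) (S : Finset α) : 0 ≤ ms D1 D2 S := by
  have h := card_le_card (sups_subset_compl D1 D2 S)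
  rw [card_powerset] at h
  have h' : (#(lk S D1 ⊻ dl S D2) : ℝ) ≤ 2 ^ #Sᶜ := by exact_mod_cast h
  unfold ms
  linarith

lemma rh_ge (D1 D2 : Finset (Finset α)) (S : Finset α) :
    1 - ms D1 D2 S / 2 ^ #Sᶜ ≤ rh D1 D2 S := by
  have hN : (0:ℝ) < 2 ^ #Sᶜ := by positivity
  have h : (#(lk S D1 ⊻ dl S D2) : ℝ) ≤ #(lk S D1) * #(dl S D2) := by
    exact_mod_cast card_sups_le _ _
  unfold ms rh
  rw [sub_div, div_self hN.ne']
  have := div_le_div_of_nonneg_right h hN.le
  linarith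

lemma step_all {D1 D2 : Finset (Finset α)} (h1 : IsLowerSet (D1 : Set (Finset α)))
    (h2 : IsLowerSet (D2 : Set (Finset α))) {S : Finset α} {i : α} (hi : i ∉ S)
    (hX : (#(D1.nonMemberSubfamily i) : ℝ) * #(D2.memberSubfamily i) ≤ #D1 * #D2 / 4) :
    ∃ β : ℝ, 0 ≤ β ∧ β ≤ rh D1 D2 S - rh D1 D2 (insert i S) ∧ β ≤ rh D1 D2 ∅ / 2 ∧
      ms D1 D2 (insert i S) * (1 - β) ≤ ms D1 D2 S := by
  set s := (insert i S)ᶜ with hs
  have his : i ∉ s := by simp [hs]
  have hins : insert i s = Sᶜ := by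
    ext x
    rw [hs, mem_insert, mem_compl, mem_insert, mem_compl]
    by_cases hx : x = i
    · subst hx; simp [hi]
    · simp [hx]
  have hcard : #Sᶜ = #s + 1 := by rw [← hins, card_insert_of_notMem his]
  have hlkl := lk_lower h1 S
  have hdll := dl_lower h2 S
  have hharris := step_harris hlkl hdll his
    (fun t ht => by rw [hins]; exact (mem_lk.mp ht).1)
    (fun t ht => by rw [hins]; exact (mem_dl.mp ht).1)
  have hprod := step_prod hlkl hdll i
  rw [← lk_insert hi, ← dl_insert] at hharris hprod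
  set w : ℝ := (#((lk S D1).nonMemberSubfamily i) : ℝ) * #((dl S D2).memberSubfamily i) with hw
  have hN : (0:ℝ) < 2 ^ #s := by positivity
  have hw0 : 0 ≤ w := by positivity
  refine ⟨w / 2 ^ #s, by positivity, ?_, ?_, ?_⟩
  · unfold rh
    rw [hcard, ← hs, le_sub_iff_add_le, ← add_div, div_le_div_iff₀ hN (by positivity), pow_succ]
    nlinarith
  · -- β ≤ ρ0/2
    have e1 : (#((lk S D1).nonMemberSubfamily i) : ℝ) * 2 ^ #S ≤ #(D1.nonMemberSubfamily i) := by
      rw [nonMember_lk hi]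
      exact_mod_cast card_lk h1.nonMemberSubfamily S
    have e2 : (#((dl S D2).memberSubfamily i) : ℝ) ≤ #(D2.memberSubfamily i) := by
      exact_mod_cast card_le_card member_dl_subset
    have e3 : w * 2 ^ #S ≤ #D1 * #D2 / 4 := by
      calc w * 2 ^ #S = ((#((lk S D1).nonMemberSubfamily i) : ℝ) * 2 ^ #S) *
            #((dl S D2).memberSubfamily i) := by rw [hw]; ring
        _ ≤ (#(D1.nonMemberSubfamily i) : ℝ) * #(D2.memberSubfamily i) :=
            mul_le_mul e1 e2 (by positivity) (by positivity)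
        _ ≤ _ := hX
    have e4 : #(∅ : Finset α)ᶜ = #S + (#s + 1) := by
      rw [← hcard, compl_empty, card_univ, card_compl]
      have := card_le_univ S
      omega
    unfold rh
    rw [lk_empty, dl_empty, e4, div_div, div_le_div_iff₀ hN (by positivity), pow_add, pow_succ]
    nlinarith
  · have hF2 : (#((lk S D1).nonMemberSubfamily i ⊻ (dl S D2).memberSubfamily i) : ℝ) ≤ w := by
      rw [hw]
      exact_mod_cast card_sups_le _ _
    have hms := ms_nonneg D1 D2 (insert i S)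
    have hms' : (2:ℝ) ^ #s - #(lk (insert i S) D1 ⊻ dl (insert i S) D2) = ms D1 D2 (insert i S) := by
      rw [hs]; rfl
    have hmsS : (2:ℝ) ^ (#s + 1) - #(lk S D1 ⊻ dl S D2) = ms D1 D2 S := by
      rw [← hcard]; rfl
    rw [hms', hmsS] at hharris
    have hb : ms D1 D2 (insert i S) * (2 ^ #s * (1 - w / 2 ^ #s)) ≤ 2 ^ #s * ms D1 D2 S := by
      have : (2:ℝ) ^ #s * (1 - w / 2 ^ #s) = 2 ^ #s - w := by
        field_simp
      rw [this]
      calc _ ≤ ms D1 D2 (insert i S) *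
          (2 ^ #s - #((lk S D1).nonMemberSubfamily i ⊻ (dl S D2).memberSubfamily i)) :=
            mul_le_mul_of_nonneg_left (by linarith) hms
        _ ≤ _ := hharris
    have : 2 ^ #s * (ms D1 D2 (insert i S) * (1 - w / 2 ^ #s)) ≤ 2 ^ #s * ms D1 D2 S := by
      calc _ = ms D1 D2 (insert i S) * (2 ^ #s * (1 - w / 2 ^ #s)) := by ring
        _ ≤ _ := hb
    exact le_of_mul_le_mul_left this hN

lemma numeric {k v : ℝ} (hk0 : 0 ≤ k) (hk : k ≤ 0.172) (hv0 : 0 ≤ v) (hv : v * 0.371 ≤ 1.36 * k)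
    {ρ : ℝ} (hρ : ρ ≤ 1.258 - 1.5 * k) (h : v * (2 - ρ - v) ≤ k) : v ≤ 1.36 * k := by
  by_contra hcon
  push Not at hcon
  have h1 : v * (0.742 + 1.5 * k - v) ≤ k := by nlinarith
  have h2 : v ≤ 3.67 * k := by nlinarith
  nlinarith [mul_nonneg (sub_nonneg.mpr hcon.le) (sub_nonneg.mpr h2)]

/-- The iteration: the number of missing sets stays bounded along sets of the right colour. -/
lemma iter {D1 D2 : Finset (Finset α)} (h1 : IsLowerSet (D1 : Set (Finset α)))
    (h2 : IsLowerSet (D2 : Set (Finset α))) {d : ℕ} (hcard : Fintype.card α = 2 * d + 1)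
    (H1 : (#D1 : ℝ) * #D2 ≤ 2.516 * (2 ^ d) ^ 2 - 3 * 2 ^ d * ms D1 D2 ∅)
    (H2 : ms D1 D2 ∅ ≤ 0.172 * 2 ^ d) {X : Finset α}
    (hX : ∀ i ∈ X, (#(D1.nonMemberSubfamily i) : ℝ) * #(D2.memberSubfamily i) ≤ #D1 * #D2 / 4)
    (S : Finset α) : S ⊆ X → #S ≤ d + 1 →
      ms D1 D2 S ≤ 1.36 * ms D1 D2 ∅ ∧ rh D1 D2 S ≤ rh D1 D2 ∅ ∧
      ms D1 D2 S * (1 - rh D1 D2 ∅ + rh D1 D2 S) ≤ ms D1 D2 ∅ := by
  set q : ℝ := 2 ^ d with hq
  have hq0 : 0 < q := by positivity
  have hm0 := ms_nonneg D1 D2 ∅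
  set m0 := ms D1 D2 ∅ with hm0def
  set ρ0 := rh D1 D2 ∅ with hρ0def
  have hN0 : (2:ℝ) ^ #(∅ : Finset α)ᶜ = 2 * q ^ 2 := by
    rw [compl_empty, card_univ, hcard, pow_succ, pow_mul, hq, ← pow_mul, ← pow_mul]; ring
  have hρ0 : ρ0 ≤ 1.258 - 1.5 * (m0 / q) := by
    rw [hρ0def]
    unfold rh
    rw [lk_empty, dl_empty, hN0, div_le_iff₀ (by positivity)]
    have : (1.258 - 1.5 * (m0 / q)) * (2 * q ^ 2) = 2.516 * q ^ 2 - 3 * q * m0 := by
      field_simp
      ring
    rw [this]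
    exact H1
  have hk0 : 0 ≤ m0 / q := by positivity
  have hk1 : m0 / q ≤ 0.172 := by
    rw [div_le_iff₀ hq0]; exact H2
  induction S using Finset.induction_on with
  | empty =>
    intro _ _
    refine ⟨by linarith, le_rfl, ?_⟩
    simp only [← hρ0def, ← hm0def]
    nlinarith
  | insert i S hi ih =>
    intro hSX hSd
    rw [card_insert_of_notMem hi] at hSd
    obtain ⟨ih1, ih2, ih3⟩ := ih ((subset_insert i S).trans hSX) (by omega)
    obtain ⟨β, hβ0, hβ1, hβ2, hβ3⟩ := step_all h1 h2 hi (hX i (hSX (mem_insert_self _ _)))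
    have hM := ms_nonneg D1 D2 (insert i S)
    have hMp := ms_nonneg D1 D2 S
    have hr := rh_ge D1 D2 (insert i S)
    have hrp := rh_ge D1 D2 S
    set M := ms D1 D2 (insert i S)
    set Mp := ms D1 D2 S
    set r := rh D1 D2 (insert i S)
    set rp := rh D1 D2 S
    have hNq : q ≤ (2:ℝ) ^ #(insert i S)ᶜ := by
      rw [hq]
      apply pow_le_pow_right₀ (by norm_num)
      rw [card_compl, card_insert_of_notMem hi, hcard]
      omega
    have hNpq : q ≤ (2:ℝ) ^ #Sᶜ := by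
      rw [hq]
      apply pow_le_pow_right₀ (by norm_num)
      rw [card_compl, hcard]
      omega
    have hr' : 1 - M / q ≤ r := by
      have : M / 2 ^ #(insert i S)ᶜ ≤ M / q := div_le_div_of_nonneg_left hM hq0 hNq
      linarith
    have hrp' : 1 - Mp / q ≤ rp := by
      have : Mp / 2 ^ #Sᶜ ≤ Mp / q := div_le_div_of_nonneg_left hMp hq0 hNpq
      linarith
    have hMpq : Mp / q ≤ 1.36 * (m0 / q) := by
      rw [← mul_div_assoc]
      exact div_le_div_of_nonneg_right ih1 hq0.le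
    have hβ4 : β ≤ 0.629 := by linarith
    have hM3 : M * 0.371 ≤ 1.36 * m0 := by nlinarith
    have hdec : r ≤ ρ0 := by linarith
    have hinv : M * (1 - ρ0 + r) ≤ m0 := by
      have hA : 0 ≤ 1 - ρ0 + rp := by linarith
      have hB : M * (1 - (rp - r)) ≤ Mp := by nlinarith
      have hC : M * (1 - (rp - r)) * (1 - ρ0 + rp) ≤ Mp * (1 - ρ0 + rp) :=
        mul_le_mul_of_nonneg_right hB hA
      have hD : 0 ≤ M * ((rp - r) * (ρ0 - rp)) :=
        mul_nonneg hM (mul_nonneg (by linarith) (by linarith))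
      nlinarith
    refine ⟨?_, hdec, hinv⟩
    have hv : M / q * (2 - ρ0 - M / q) ≤ m0 / q := by
      have : M * (2 - ρ0 - M / q) ≤ m0 := by
        calc M * (2 - ρ0 - M / q) ≤ M * (1 - ρ0 + r) :=
              mul_le_mul_of_nonneg_left (by linarith) hM
          _ ≤ m0 := hinv
      calc M / q * (2 - ρ0 - M / q) = M * (2 - ρ0 - M / q) / q := by ring
        _ ≤ m0 / q := div_le_div_of_nonneg_right this hq0.le
    have hv2 : M / q * 0.371 ≤ 1.36 * (m0 / q) := by
      calc M / q * 0.371 = (M * 0.371) / q := by ring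
        _ ≤ (1.36 * m0) / q := div_le_div_of_nonneg_right hM3 hq0.le
        _ = _ := by ring
    have := numeric hk0 hk1 (by positivity) hv2 hρ0 hv
    rw [← mul_div_assoc, div_le_div_iff_of_pos_right hq0] at this
    exact this

end Pool.Agent.XSperner
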