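import Mathlib
import Pool.Agent.XSperner.Iter

namespace Pool.Agent.XSperner

open Finset
open scoped FinsetFamily

variable {α : Type*} [DecidableEq α] [Fintype α]

lemma colour {D1 D2 : Finset (Finset α)} (h1 : IsLowerSet (D1 : Set (Finset α)))
    (h2 : IsLowerSet (D2 : Set (Finset α))) {d : ℕ} (hcard : Fintype.card α = 2 * d + 1)
    (H1 : (#D1 : ℝ) * #D2 ≤ 2.516 * (2 ^ d) ^ 2 - 3 * 2 ^ d * ms D1 D2 ∅)
    (H2 : ms D1 D2 ∅ ≤ 0.172 * 2 ^ d) (H3 : (#D1 : ℝ) < 4 * 2 ^ d) {X : Finset α}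
    (hX : ∀ i ∈ X, (#(D1.nonMemberSubfamily i) : ℝ) * #(D2.memberSubfamily i) ≤ #D1 * #D2 / 4) :
    #X ≤ d + 1 ∧ X ∈ D1 := by
  have hit := iter h1 h2 hcard H1 H2 hX
  set q : ℝ := 2 ^ d with hq
  have hq0 : 0 < q := by positivity
  have hm0 := ms_nonneg D1 D2 ∅
  set m0 := ms D1 D2 ∅ with hm0def
  have hmem : ∀ S : Finset α, S ⊆ X → #S ≤ d + 1 → S ∈ D1 := by
    intro S hSX hSd
    by_contra hS
    have hlk : lk S D1 = ∅ := by
      rw [eq_empty_iff_forall_notMem]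
      intro R hR
      rw [mem_lk] at hR
      exact hS (h1 (show S ≤ R ∪ S from subset_union_right) hR.2)
    have h3 : ms D1 D2 S = 2 ^ #Sᶜ := by
      unfold ms
      rw [hlk]
      simp
    have h4 := (hit S hSX hSd).1
    have hNq : q ≤ (2:ℝ) ^ #Sᶜ := by
      rw [hq]
      apply pow_le_pow_right₀ (by norm_num)
      rw [card_compl, hcard]
      omega
    rw [h3] at h4
    nlinarith
  have hXc : #X ≤ d + 1 := by
    by_contra hcon
    push Not at hcon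
    obtain ⟨S, hSX, hSc⟩ := exists_subset_card_eq hcon.le
    have hne : S ≠ X := by
      rintro rfl
      omega
    obtain ⟨i, hiX, hiS⟩ := exists_of_ssubset (hSX.ssubset_of_ne hne)
    have hS1 := hmem S hSX hSc.le
    have hms := (hit S hSX hSc.le).1
    have hclk := card_lk h1 S
    rw [hSc] at hclk
    have hclk' : (#(lk S D1) : ℝ) * (2 * q) ≤ #D1 := by
      have : ((#(lk S D1) * 2 ^ (d + 1) : ℕ) : ℝ) ≤ #D1 := by exact_mod_cast hclk
      rw [hq]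
      push_cast [pow_succ] at this
      linarith
    have hlt : #(lk S D1) ≤ 1 := by
      by_contra h
      push Not at h
      have : (2:ℝ) ≤ #(lk S D1) := by exact_mod_cast h
      nlinarith
    have hcS : #Sᶜ = d := by rw [card_compl, hcard, hSc]; omega
    have hiSc : i ∉ S := hiS
    have hcS' : #Sᶜ = #(insert i S)ᶜ + 1 := by
      rw [card_compl, card_compl, card_insert_of_notMem hiSc, hcard, hSc]
      have := card_le_univ (insert i S)
      rw [card_insert_of_notMem hiSc, hcard, hSc] at this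
      omega
    -- dl is big
    have e1 : q - m0 * 1.36 ≤ #(dl S D2) := by
      have h5 : (#(lk S D1 ⊻ dl S D2) : ℝ) ≤ #(dl S D2) := by
        have h6 : #(lk S D1 ⊻ dl S D2) ≤ #(lk S D1) * #(dl S D2) := card_sups_le _ _
        have h7 : #(lk S D1) * #(dl S D2) ≤ 1 * #(dl S D2) := Nat.mul_le_mul_right _ hlt
        rw [one_mul] at h7
        exact_mod_cast h6.trans h7
      have h8 : ms D1 D2 S = q - #(lk S D1 ⊻ dl S D2) := by
        unfold ms
        rw [hcS, hq]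
      rw [h8] at hms
      linarith
    have e2 : (#((dl S D2).memberSubfamily i) : ℝ) + #((dl S D2).nonMemberSubfamily i) =
        #(dl S D2) := by
      exact_mod_cast card_memberSubfamily_add_card_nonMemberSubfamily i (dl S D2)
    have e3 : 2 * (#((dl S D2).nonMemberSubfamily i) : ℝ) ≤ q := by
      have h5 : #((dl S D2).nonMemberSubfamily i) ≤ 2 ^ #(insert i S)ᶜ := by
        rw [← dl_insert, ← card_powerset]
        exact card_le_card (filter_subset _ _)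
      have h6 : (#((dl S D2).nonMemberSubfamily i) : ℝ) ≤ 2 ^ #(insert i S)ᶜ := by
        exact_mod_cast h5
      have h7 : (2:ℝ) ^ d = 2 ^ #(insert i S)ᶜ * 2 := by
        rw [← hcS, hcS', pow_succ]
      rw [hq, h7]
      linarith
    have e4 : (#((dl S D2).memberSubfamily i) : ℝ) ≤ #(D2.memberSubfamily i) := by
      exact_mod_cast card_le_card member_dl_subset
    have e5 : 2 * q ≤ (#(D1.nonMemberSubfamily i) : ℝ) := by
      have h5 : #S.powerset ≤ #(D1.nonMemberSubfamily i) := by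
        apply card_le_card
        intro T hT
        rw [mem_powerset] at hT
        rw [mem_nonMemberSubfamily]
        exact ⟨h1 hT hS1, fun h => hiSc (hT h)⟩
      rw [card_powerset, hSc] at h5
      have h6 : ((2 ^ (d + 1) : ℕ) : ℝ) ≤ #(D1.nonMemberSubfamily i) := by exact_mod_cast h5
      push_cast [pow_succ] at h6
      rw [hq]
      linarith
    have e6 := hX i hiX
    have e7 : q / 2 - m0 * 1.36 ≤ #(D2.memberSubfamily i) := by linarith
    have e8 : 0 ≤ q / 2 - m0 * 1.36 := by nlinarith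
    have e9 : 2 * q * (q / 2 - m0 * 1.36) ≤ (#(D1.nonMemberSubfamily i) : ℝ) *
        #(D2.memberSubfamily i) := mul_le_mul e5 e7 e8 (by positivity)
    have e10 : 2 * q * (q / 2 - m0 * 1.36) ≤ (2.516 * q ^ 2 - 3 * q * m0) / 4 := by linarith
    have e11 : q * m0 ≤ 0.172 * q ^ 2 := by nlinarith
    nlinarith [pow_pos hq0 2]
  exact ⟨hXc, hmem X (Subset.refl X) hXc⟩

/-- The numeric heart: a pair of down-sets cannot be too efficient. -/
lemma down_main {D1 D2 : Finset (Finset α)} (h1 : IsLowerSet (D1 : Set (Finset α)))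
    (h2 : IsLowerSet (D2 : Set (Finset α))) {d : ℕ} (hcard : Fintype.card α = 2 * d + 1)
    (he1 : ∅ ∈ D1) (he2 : ∅ ∈ D2)
    (hi : 2 * ((2:ℝ) ^ d) ^ 2 - 3 * 2 ^ d + 2 ≤ #(D1 \ D2) * #(D2 \ D1))
    (hii : (#(D1 ∪ D2) : ℝ) + ((2:ℝ) ^ (2 * d + 1) - #(D1 ⊻ D2)) ≤ 3 * 2 ^ d - 2) : False := by
  have hms : ms D1 D2 ∅ = (2:ℝ) ^ (2 * d + 1) - #(D1 ⊻ D2) := by
    unfold ms
    rw [lk_empty, dl_empty, compl_empty, card_univ, hcard]
  have hms' : ms D2 D1 ∅ = ms D1 D2 ∅ := by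
    rw [hms]
    unfold ms
    rw [lk_empty, dl_empty, compl_empty, card_univ, hcard, sups_comm]
  rw [← hms] at hii
  have hm0 := ms_nonneg D1 D2 ∅
  have hq1 : (1:ℝ) ≤ 2 ^ d := one_le_pow₀ (by norm_num)
  have c1 : (#(D1 \ D2) : ℝ) + #(D1 ∩ D2) = #D1 := by
    exact_mod_cast card_sdiff_add_card_inter D1 D2
  have c2 : (#(D2 \ D1) : ℝ) + #(D1 ∩ D2) = #D2 := by
    have := card_sdiff_add_card_inter D2 D1
    rw [inter_comm] at this
    exact_mod_cast this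
  have c3 : (#(D1 ∪ D2) : ℝ) + #(D1 ∩ D2) = #D1 + #D2 := by
    exact_mod_cast card_union_add_card_inter D1 D2
  have c4 : (1:ℝ) ≤ #(D1 ∩ D2) := by
    have : 0 < #(D1 ∩ D2) := card_pos.mpr ⟨∅, mem_inter.mpr ⟨he1, he2⟩⟩
    exact_mod_cast this
  have ha0 : (0:ℝ) ≤ #(D1 \ D2) := Nat.cast_nonneg _
  have hb0 : (0:ℝ) ≤ #(D2 \ D1) := Nat.cast_nonneg _
  have hnum : (#D1 : ℝ) * #D2 ≤ 2.516 * (2 ^ d) ^ 2 - 3 * 2 ^ d * ms D1 D2 ∅ ∧
      ms D1 D2 ∅ ≤ 0.172 * 2 ^ d ∧ (#D1 : ℝ) < 4 * 2 ^ d ∧ (#D2 : ℝ) < 4 * 2 ^ d := by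
    set q : ℝ := 2 ^ d
    set m0 := ms D1 D2 ∅
    set a : ℝ := ((#(D1 \ D2) : ℕ) : ℝ)
    set b : ℝ := ((#(D2 \ D1) : ℕ) : ℝ)
    set c : ℝ := ((#(D1 ∩ D2) : ℕ) : ℝ)
    have hu : a + b + c + m0 ≤ 3 * q - 2 := by linarith
    have hx : 2.828 * q - 2.12 ≤ a + b := by
      by_contra hcon
      push Not at hcon
      have h3 : 4 * (2 * q ^ 2 - 3 * q + 2) ≤ (a + b) ^ 2 := by nlinarith [sq_nonneg (a - b)]
      have h4 : (a + b) ^ 2 < (2.828 * q - 2.12) ^ 2 := by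
        apply pow_lt_pow_left₀ hcon (by positivity) (by norm_num)
      nlinarith [sq_nonneg (q - 2)]
    have hm : m0 ≤ 0.172 * q := by linarith
    refine ⟨?_, hm, by linarith, by linarith⟩
    have h5 : (a + b + 2 * c) / 2 ≤ 1.586 * q - m0 := by linarith
    have h6 : (a + c) * (b + c) ≤ ((a + b + 2 * c) / 2) ^ 2 := by nlinarith [sq_nonneg (a - b)]
    have h7 : ((a + b + 2 * c) / 2) ^ 2 ≤ (1.586 * q - m0) ^ 2 :=
      pow_le_pow_left₀ (by positivity) h5 2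
    rw [← c1, ← c2]
    nlinarith
  obtain ⟨H1, H2, H3, H4⟩ := hnum
  have H1' : (#D2 : ℝ) * #D1 ≤ 2.516 * (2 ^ d) ^ 2 - 3 * 2 ^ d * ms D2 D1 ∅ := by
    rw [hms', mul_comm]; exact H1
  have H2' : ms D2 D1 ∅ ≤ 0.172 * 2 ^ d := by rw [hms']; exact H2
  classical
  let X : Finset α := univ.filter (fun i =>
    (#(D1.nonMemberSubfamily i) : ℝ) * #(D2.memberSubfamily i) ≤ #D1 * #D2 / 4)
  have hX1 := colour h1 h2 hcard H1 H2 H3 (X := X) (fun i hi => (mem_filter.mp hi).2)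
  have hX2 := colour h2 h1 hcard H1' H2' H4 (X := Xᶜ) (fun i hi => by
    have h3 : ¬ ((#(D1.nonMemberSubfamily i) : ℝ) * #(D2.memberSubfamily i) ≤ #D1 * #D2 / 4) := by
      intro h
      exact (mem_compl.mp hi) (mem_filter.mpr ⟨mem_univ _, h⟩)
    push Not at h3
    have h4 := step_prod h1 h2 i
    nlinarith)
  have hsub : X.powerset ∪ (Xᶜ).powerset ⊆ D1 ∪ D2 := by
    intro T hT
    rw [mem_union, mem_powerset, mem_powerset] at hT
    rw [mem_union]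
    rcases hT with hT | hT
    · left; exact h1 hT hX1.2
    · right; exact h2 hT hX2.2
  have hc := card_le_card hsub
  have hcu := card_union_add_card_inter X.powerset (Xᶜ).powerset
  have hint : X.powerset ∩ (Xᶜ).powerset = {∅} := by
    ext T
    rw [mem_inter, mem_powerset, mem_powerset, mem_singleton, ← subset_inter_iff, inter_compl,
      subset_empty]
  rw [hint, card_singleton, card_powerset, card_powerset] at hcu
  have hsum : #X + #Xᶜ = 2 * d + 1 := by rw [card_add_card_compl, hcard]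
  have hfin : 2 ^ #X + 2 ^ #Xᶜ = 3 * 2 ^ d := by
    have hh : (#X = d ∧ #Xᶜ = d + 1) ∨ (#X = d + 1 ∧ #Xᶜ = d) := by omega
    rcases hh with ⟨h, h'⟩ | ⟨h, h'⟩ <;> rw [h, h', pow_succ] <;> ring
  have : 3 * 2 ^ d ≤ #(D1 ∪ D2) + 1 := by omega
  have hr : (3:ℝ) * 2 ^ d ≤ #(D1 ∪ D2) + 1 := by exact_mod_cast this
  linarith

/-- The upper bound, union version. -/
lemma union_bound {d : ℕ} (hcard : Fintype.card α = 2 * d + 1) (A B : Finset (Finset α))
    (hAB : ∀ a ∈ A, ∀ b ∈ B, ¬ a ⊆ b ∧ ¬ b ⊆ a) :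
    #(A ⊻ B) + 2 ^ (d + 1) + 2 ^ d ≤ 2 ^ (2 * d + 1) + 1 := by
  by_contra hcon
  push Not at hcon
  have hpq : 2 ^ (d + 1) + 2 ^ d ≤ 2 ^ (2 * d + 1) + 1 := by
    rw [pow_succ, pow_succ, pow_mul', sq]
    have : 1 ≤ 2 ^ d := Nat.one_le_two_pow
    nlinarith
  have hpos : 0 < #(A ⊻ B) := by omega
  obtain ⟨w, hw⟩ := card_pos.mp hpos
  rw [mem_sups] at hw
  obtain ⟨a0, ha0, b0, hb0, -⟩ := hw
  let D1 : Finset (Finset α) := univ.filter (fun W => ∀ b ∈ B, ¬ b ⊆ W)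
  let D2 : Finset (Finset α) := univ.filter (fun W => ∀ a ∈ A, ¬ a ⊆ W)
  have hD1 : ∀ W, W ∈ D1 ↔ ∀ b ∈ B, ¬ b ⊆ W := fun W => by simp [D1]
  have hD2 : ∀ W, W ∈ D2 ↔ ∀ a ∈ A, ¬ a ⊆ W := fun W => by simp [D2]
  have h1 : IsLowerSet (D1 : Set (Finset α)) := by
    intro x y hyx hx
    rw [mem_coe, hD1] at hx ⊢
    exact fun b hb h => hx b hb (h.trans hyx)
  have h2 : IsLowerSet (D2 : Set (Finset α)) := by
    intro x y hyx hx
    rw [mem_coe, hD2] at hx ⊢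
    exact fun b hb h => hx b hb (h.trans hyx)
  have he1 : ∅ ∈ D1 := by
    rw [hD1]
    intro b hb h
    exact (hAB a0 ha0 b hb).2 (h.trans (empty_subset _))
  have he2 : ∅ ∈ D2 := by
    rw [hD2]
    intro a ha h
    exact (hAB a ha b0 hb0).1 (h.trans (empty_subset _))
  have hA : A ⊆ D1 \ D2 := by
    intro a ha
    rw [mem_sdiff, hD1, hD2]
    exact ⟨fun b hb h => (hAB a ha b hb).2 h, fun h => h a ha (Subset.refl a)⟩
  have hB : B ⊆ D2 \ D1 := by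
    intro b hb
    rw [mem_sdiff, hD1, hD2]
    exact ⟨fun a ha h => (hAB a ha b hb).1 h, fun h => h b hb (Subset.refl b)⟩
  have hsub1 : A ⊻ B ⊆ (D1 ⊻ D2) \ (D1 ∪ D2) := by
    intro W hW
    rw [mem_sups] at hW
    obtain ⟨a, ha, b, hb, rfl⟩ := hW
    rw [mem_sdiff, mem_union, not_or]
    refine ⟨mem_sups.mpr ⟨a, (mem_sdiff.mp (hA ha)).1, b, (mem_sdiff.mp (hB hb)).1, rfl⟩, ?_, ?_⟩
    · intro h
      exact (hD1 _).mp h b hb subset_union_right
    · intro h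
      exact (hD2 _).mp h a ha subset_union_left
  have hsub2 : D1 ∪ D2 ⊆ D1 ⊻ D2 := by
    intro W hW
    rw [mem_union] at hW
    rw [mem_sups]
    rcases hW with h | h
    · exact ⟨W, h, ∅, he2, union_empty W⟩
    · exact ⟨∅, he1, W, h, empty_union W⟩
  have hc1 := card_le_card hsub1
  rw [card_sdiff_of_subset hsub2] at hc1
  have hc2 : #(D1 ⊻ D2) ≤ 2 ^ (2 * d + 1) := by
    calc #(D1 ⊻ D2) ≤ #(univ : Finset (Finset α)) := card_le_univ _
      _ = 2 ^ (2 * d + 1) := by rw [card_univ, Fintype.card_finset, hcard]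
  have hc3 := card_le_card hsub2
  have hc4 : #(A ⊻ B) ≤ #(D1 \ D2) * #(D2 \ D1) :=
    (card_sups_le _ _).trans (Nat.mul_le_mul (card_le_card hA) (card_le_card hB))
  have hr0 : (2:ℝ) ^ (2 * d + 1) = 2 * (2 ^ d) ^ 2 := by
    rw [pow_succ, pow_mul']; ring
  have hr1 : (2:ℝ) ^ (2 * d + 1) + 2 ≤ #(A ⊻ B) + 3 * 2 ^ d := by
    have h3 : 2 ^ (2 * d + 1) + 1 + 1 ≤ #(A ⊻ B) + 2 ^ (d + 1) + 2 ^ d := hcon
    have h4 : ((2 ^ (2 * d + 1) + 1 + 1 : ℕ) : ℝ) ≤ ((#(A ⊻ B) + 2 ^ (d + 1) + 2 ^ d : ℕ) : ℝ) := by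
      exact_mod_cast h3
    push_cast [pow_succ] at h4
    rw [pow_succ]
    linarith
  have hr2 : (#(A ⊻ B) : ℝ) ≤ #(D1 \ D2) * #(D2 \ D1) := by exact_mod_cast hc4
  have hr3 : (#(A ⊻ B) : ℝ) + #(D1 ∪ D2) ≤ #(D1 ⊻ D2) := by
    have : #(A ⊻ B) + #(D1 ∪ D2) ≤ #(D1 ⊻ D2) := by omega
    exact_mod_cast this
  refine down_main h1 h2 hcard he1 he2 ?_ ?_
  · linarith
  · linarith

end Pool.Agent.XSperner
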